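import Pool.Agent.AVF.ALL

/-!
# Vaught's conjecture for weakly normal groups

Vaught's conjecture holds for all theories (complete or not, in any countable language) of groups with any
further structure in which the group operation and all basic relations and functions are Boolean
combinations of cosets definable with finitely many parameters. All theories of modules over countable
rings (`Pool/Agent/AFT/OBM.lean`) and of abelian-by-finite groups (`Pool/Agent/AFT/ABF.lean`) are of
this kind and, by Hrushovski and Pillay, in a finite language all theories of one-based groups with any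
further structure.
-/

set_option autoImplicit false

namespace Pool.Agent.Results.MP_5df2c5_lc.AllWeaklyNormalGroups

open FirstOrder.Language

/-- `D ⊆ M^n` is a Boolean combination of cosets of subgroups of `M^n` which are definable over `A`:
for finitely many sets `C j`, definable with parameters in `A` and closed under `x y⁻¹ z` (that is,
empty or cosets of subgroups of `M^n`), the set `D` is a union of classes of the equivalence relation
`∀ j, x ∈ C j ↔ y ∈ C j`. -/
def IsBoolCosets (L : FirstOrder.Language.{0, 0}) {M : Type} [L.Structure M] [Group M]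
    (A : Set M) {n : ℕ} (D : Set (Fin n → M)) : Prop :=
  ∃ (m : ℕ) (C : Fin m → Set (Fin n → M)),
    (∀ j, A.Definable L (C j) ∧
      ∀ x ∈ C j, ∀ y ∈ C j, ∀ z ∈ C j, x * y⁻¹ * z ∈ C j) ∧
    ∀ x y : Fin n → M, (∀ j, x ∈ C j ↔ y ∈ C j) → (x ∈ D ↔ y ∈ D)

/-- `M` is a weakly normal group: for some finite set `A` of parameters and some group operation on
`M` (not necessarily commutative), the graph of the operation, all basic relations and the graphs of
all basic functions of `M` are Boolean combinations of cosets definable over `A`. -/
def IsWN (L : FirstOrder.Language.{0, 0}) (M : Type) [L.Structure M] : Prop :=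
  ∃ (A : Set M) (_ : Group M), A.Finite ∧
    IsBoolCosets L A {v : Fin 3 → M | v 0 * v 1 = v 2} ∧
    (∀ (n : ℕ) (R : L.Relations n), IsBoolCosets L A {x : Fin n → M | Structure.RelMap R x}) ∧
    ∀ (n : ℕ) (F : L.Functions n),
      IsBoolCosets L A {x : Fin (n + 1) → M | Structure.funMap F (Fin.init x) = x (Fin.last n)}

/-- The dichotomy of S14759 for the theory `T`: its models on `ℕ` fall into countably many isomorphism
classes, or a continuous map from Cantor space to these models has pairwise nonisomorphic values. -/
def Dich (L : FirstOrder.Language.{0, 0}) (T : L.Theory) : Prop :=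
  (∃ g : ℕ → L.Structure ℕ, ∀ S : L.Structure ℕ,
      @FirstOrder.Language.Theory.Model L ℕ S T →
        ∃ n : ℕ, Nonempty (@FirstOrder.Language.Equiv L ℕ ℕ S (g n))) ∨
  (∃ f : (ℕ → Bool) → L.Structure ℕ,
      (∀ x : ℕ → Bool, @FirstOrder.Language.Theory.Model L ℕ (f x) T) ∧
      (∀ x y : ℕ → Bool,
          Nonempty (@FirstOrder.Language.Equiv L ℕ ℕ (f x) (f y)) → x = y) ∧
      (∀ (n : ℕ) (R : L.Relations n) (a : Fin n → ℕ),
          IsClopen {x : ℕ → Bool | @FirstOrder.Language.Structure.RelMap L ℕ (f x) n R a}) ∧
      (∀ (n : ℕ) (F : L.Functions n) (a : Fin n → ℕ) (b : ℕ),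
          IsOpen {x : ℕ → Bool | @FirstOrder.Language.Structure.funMap L ℕ (f x) n F a = b}))

/-- **Vaught's conjecture for all theories of weakly normal groups with any further structure.** -/
theorem result (L : FirstOrder.Language.{0, 0}) [Countable L.Symbols] (T : L.Theory)
    (hT : ∀ S : L.Structure ℕ, @FirstOrder.Language.Theory.Model L ℕ S T → @IsWN L ℕ S) :
    Dich L T :=
  Pool.Agent.AVF.all_WN L inferInstance T hT

end Pool.Agent.Results.MP_5df2c5_lc.AllWeaklyNormalGroups
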