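import Pool.Agent.MTC.ALL

/-!
# Vaught's and Martin's conjecture for monadically NIP theories

`T` is a first-order theory in a countable language, not necessarily complete, and monadically NIP: in no
expansion of a model of `T` on `ℕ` by unary predicates does a formula shatter arbitrarily large finite
sets.  Then `T` satisfies Vaught's conjecture, and if `T` has few models then every model of `T` on `ℕ` is
determined up to isomorphism by its sentences of the fragment `L_1(T)`.
-/

set_option autoImplicit false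

namespace Pool.Agent.Results.MP_5df2c5_lc.MonadicallyNIPTheories

open FirstOrder Set

/-- Formulas with the free variables `x_0, .., x_(n-1)` built from first-order formulas and infinite
conjunctions `⋀ p(x_(f 0), .., x_(f (k-1)))` of sets `p` of first-order formulas by negation, conjunction
and quantification. -/
inductive Frag (L : FirstOrder.Language.{0, 0}) : ℕ → Type
  | fo {n : ℕ} (φ : L.Formula (Fin n)) : Frag L n
  | typ {n k : ℕ} (f : Fin k → Fin n) (p : Set (L.Formula (Fin k))) : Frag L n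
  | neg {n : ℕ} (φ : Frag L n) : Frag L n
  | conj {n : ℕ} (φ ψ : Frag L n) : Frag L n
  | ex {n : ℕ} (φ : Frag L (n + 1)) : Frag L n

/-- Satisfaction in a structure on `ℕ`. -/
def Frag.Sat {L : FirstOrder.Language.{0, 0}} (S : L.Structure ℕ) :
    ∀ {n : ℕ}, Frag L n → (Fin n → ℕ) → Prop
  | _, .fo φ, v => @FirstOrder.Language.Formula.Realize L ℕ S _ φ v
  | _, .typ f p, v => ∀ φ ∈ p, @FirstOrder.Language.Formula.Realize L ℕ S _ φ fun i => v (f i)
  | _, .neg φ, v => ¬ Frag.Sat S φ v
  | _, .conj φ ψ, v => Frag.Sat S φ v ∧ Frag.Sat S ψ v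
  | n, .ex φ, v => ∃ x : ℕ, Frag.Sat S φ (Fin.snoc v x : Fin (n + 1) → ℕ)

/-- The formulas of `L_1(T)`: all infinite conjunctions are conjunctions of complete types, of the sets
of all formulas true of a tuple of a model of `T` on `ℕ`. -/
def Frag.IsL1 {L : FirstOrder.Language.{0, 0}} (T : L.Theory) : ∀ {n : ℕ}, Frag L n → Prop
  | _, .fo _ => True
  | _, .typ (k := k) _ p => ∃ (S : L.Structure ℕ) (v : Fin k → ℕ),
      @FirstOrder.Language.Theory.Model L ℕ S T ∧
        p = {φ | @FirstOrder.Language.Formula.Realize L ℕ S (Fin k) φ v}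
  | _, .neg φ => Frag.IsL1 T φ
  | _, .conj φ ψ => Frag.IsL1 T φ ∧ Frag.IsL1 T ψ
  | _, .ex φ => Frag.IsL1 T φ

/-- `S` and `S'` satisfy the same sentences of `L_1(T)`. -/
def SameL1 {L : FirstOrder.Language.{0, 0}} (T : L.Theory) (S S' : L.Structure ℕ) : Prop :=
  ∀ φ : Frag L 0, φ.IsL1 T → (φ.Sat S Fin.elim0 ↔ φ.Sat S' Fin.elim0)

/-- The dichotomy for a theory: its models on `ℕ` fall into countably many isomorphism classes and are
determined up to isomorphism by their sentences of `L_1(T)`, or a continuous map from Cantor space to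
these models has pairwise nonisomorphic values. -/
def Dich (L : FirstOrder.Language.{0, 0}) (T : L.Theory) : Prop :=
  ((∃ g : ℕ → L.Structure ℕ, ∀ S : L.Structure ℕ,
      @FirstOrder.Language.Theory.Model L ℕ S T →
        ∃ n : ℕ, Nonempty (@FirstOrder.Language.Equiv L ℕ ℕ S (g n))) ∧
    ∀ S S' : L.Structure ℕ, @FirstOrder.Language.Theory.Model L ℕ S T →
      @FirstOrder.Language.Theory.Model L ℕ S' T → SameL1 T S S' →
        Nonempty (@FirstOrder.Language.Equiv L ℕ ℕ S S')) ∨
  (∃ f : (ℕ → Bool) → L.Structure ℕ,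
      (∀ x : ℕ → Bool, @FirstOrder.Language.Theory.Model L ℕ (f x) T) ∧
      (∀ x y : ℕ → Bool,
          Nonempty (@FirstOrder.Language.Equiv L ℕ ℕ (f x) (f y)) → x = y) ∧
      (∀ (n : ℕ) (R : L.Relations n) (a : Fin n → ℕ),
          IsClopen {x : ℕ → Bool | @FirstOrder.Language.Structure.RelMap L ℕ (f x) n R a}) ∧
      (∀ (n : ℕ) (F : L.Functions n) (a : Fin n → ℕ) (b : ℕ),
          IsOpen {x : ℕ → Bool | @FirstOrder.Language.Structure.funMap L ℕ (f x) n F a = b}))

/-- `F` shatters a set with `k` elements. -/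
def Shatters {α β : Type} (F : α → β → Prop) (k : ℕ) : Prop :=
  ∃ (x : Fin k → α) (y : Set (Fin k) → β), ∀ i s, F (x i) (y s) ↔ i ∈ s

/-! ### The hypothesis -/

/-- In all models on `ℕ`, for every set `P`, no relation `∃ z ∈ P, φ(x, y, z)` between tuples shatters
arbitrarily large finite sets. -/
def NIPOne (L : FirstOrder.Language.{0, 0}) (T : L.Theory) : Prop :=
  ∀ S : L.Structure ℕ, @FirstOrder.Language.Theory.Model L ℕ S T →
    ∀ (P : Set ℕ) (m n : ℕ) (φ : L.Formula ((Fin m ⊕ Fin n) ⊕ Unit)), ∃ k : ℕ,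
      ¬ Shatters (fun (x : Fin m → ℕ) (y : Fin n → ℕ) =>
        ∃ z ∈ P, φ.Realize (Sum.elim (Sum.elim x y) fun _ => z)) k

/-- Unary predicates `P 0, P 1, ..`. -/
inductive UnRel : ℕ → Type
  | mk : ℕ → UnRel 1

/-- The language of the unary predicates. -/
def LU : FirstOrder.Language.{0, 0} := ⟨fun _ => Empty, UnRel⟩

/-- The structure on `ℕ` given by sets `W 0, W 1, ..`. -/
@[reducible] def luStr (W : ℕ → Set ℕ) : LU.Structure ℕ where
  funMap := fun f => nomatch f
  RelMap := fun {n} (r : UnRel n) => match n, r with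
    | _, UnRel.mk i => fun a => a 0 ∈ W i

/-- `T` is monadically NIP: in every expansion of a model on `ℕ` by unary predicates no formula shatters
arbitrarily large finite sets. -/
def IsMonadicallyNIP (L : FirstOrder.Language.{0, 0}) (T : L.Theory) : Prop :=
  ∀ S : L.Structure ℕ, @FirstOrder.Language.Theory.Model L ℕ S T →
    ∀ (W : ℕ → Set ℕ) (m n : ℕ) (φ : (L.sum LU).Formula (Fin m ⊕ Fin n)), ∃ k : ℕ,
      ¬ Shatters (fun (x : Fin m → ℕ) (y : Fin n → ℕ) =>
        @FirstOrder.Language.Formula.Realize (L.sum LU) ℕ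
          (@FirstOrder.Language.sumStructure L LU ℕ S (luStr W)) _ φ (Sum.elim x y)) k

/-! ### Proof -/

theorem nipOne_of {L : FirstOrder.Language.{0, 0}} {T : L.Theory} (h : IsMonadicallyNIP L T) :
    NIPOne L T := by
  intro S hS P m n φ
  let _ : LU.Structure ℕ := luStr fun _ => P
  let q : (L.sum LU).Relations 1 := Sum.inr (UnRel.mk 0 : LU.Relations 1)
  let ψ : (L.sum LU).Formula ((Fin m ⊕ Fin n) ⊕ Unit) :=
    (FirstOrder.Language.LHom.sumInl : L →ᴸ L.sum LU).onFormula φ ⊓
      q.formula fun _ => FirstOrder.Language.Term.var (Sum.inr ())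
  have hψ : ∀ v : (Fin m ⊕ Fin n) ⊕ Unit → ℕ,
      ψ.Realize v ↔ φ.Realize v ∧ v (Sum.inr ()) ∈ P := by
    intro v
    show ((FirstOrder.Language.LHom.sumInl : L →ᴸ L.sum LU).onFormula φ ⊓
      q.formula fun _ => FirstOrder.Language.Term.var (Sum.inr ())).Realize v ↔ _
    rw [FirstOrder.Language.Formula.realize_inf, FirstOrder.Language.LHom.realize_onFormula,
      FirstOrder.Language.Formula.realize_rel]
    exact Iff.rfl
  obtain ⟨k, hk⟩ := h S hS (fun _ => P) m n (ψ.iExs Unit)
  refine ⟨k, fun hc => hk ?_⟩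
  obtain ⟨x, y, hxy⟩ := hc
  refine ⟨x, y, fun i s => ?_⟩
  rw [← hxy i s]
  show (ψ.iExs Unit).Realize (Sum.elim (x i) (y s)) ↔ _
  rw [FirstOrder.Language.Formula.realize_iExs]
  constructor
  · rintro ⟨z, hz⟩
    have h1 := (hψ _).1 hz
    exact ⟨z (), h1.2, h1.1⟩
  · rintro ⟨z, hz, hz'⟩
    exact ⟨fun _ => z, (hψ _).2 ⟨hz', hz⟩⟩

/-- translation of the formulas of `MTC/L1.lean` -/
def ofL1F {L : FirstOrder.Language.{0, 0}} : ∀ {n : ℕ}, Pool.Agent.MTC.L1F L n → Frag L n
  | _, .fo φ => .fo φ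
  | _, .typ f p => .typ f p
  | _, .neg φ => .neg (ofL1F φ)
  | _, .conj φ ψ => .conj (ofL1F φ) (ofL1F ψ)
  | _, .ex φ => .ex (ofL1F φ)

theorem sat_ofL1F {L : FirstOrder.Language.{0, 0}} (S : L.Structure ℕ) {n : ℕ}
    (φ : Pool.Agent.MTC.L1F L n) : ∀ v : Fin n → ℕ,
      ((ofL1F φ).Sat S v ↔ @Pool.Agent.MTC.L1F.Sat L ℕ S n φ v) := by
  induction φ with
  | fo φ => exact fun v => Iff.rfl
  | typ f p => exact fun v => Iff.rfl
  | neg φ ih => exact fun v => not_congr (ih v)
  | conj φ ψ ih ih' => exact fun v => and_congr (ih v) (ih' v)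
  | ex φ ih => exact fun v => exists_congr fun x => ih _

theorem isL1_ofL1F {L : FirstOrder.Language.{0, 0}} {T : L.Theory} {n : ℕ}
    (φ : Pool.Agent.MTC.L1F L n) : (ofL1F φ).IsL1 T ↔ φ.Of T := by
  induction φ with
  | fo φ => exact Iff.rfl
  | typ f p => exact Iff.rfl
  | neg φ ih => exact ih
  | conj φ ψ ih ih' => exact and_congr ih ih'
  | ex φ ih => exact ih

theorem result_of (hLFN : Pool.Agent.MTC.St_LFN) (L : FirstOrder.Language.{0, 0})
    (hL : Countable L.Symbols) (T : L.Theory) (h : IsMonadicallyNIP L T ∨ NIPOne L T) : Dich L T := by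
  rcases hLFN L hL T (h.elim (fun h => nipOne_of h) id) with ⟨h1, h2⟩ | h1
  · refine Or.inl ⟨h1, fun S S' hS hS' hE => h2 S S' hS hS' fun φ hφ => ?_⟩
    exact (sat_ofL1F S φ _).symm.trans ((hE (ofL1F φ) ((isL1_ofL1F φ).2 hφ)).trans (sat_ofL1F S' φ _))
  · exact Or.inr h1

/-- Vaught's conjecture, with the `L_1(T)`-categoricity of all models, for all monadically NIP theories in
countable languages. -/
theorem result (L : FirstOrder.Language.{0, 0}) (hL : Countable L.Symbols) (T : L.Theory)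
    (h : IsMonadicallyNIP L T ∨ NIPOne L T) : Dich L T :=
  result_of Pool.Agent.MTC.a_LFN L hL T h

end Pool.Agent.Results.MP_5df2c5_lc.MonadicallyNIPTheories
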