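import Pool.Agent.VOD.All

/-!
# Vaught's conjecture by the form of the axioms: the classification

`Pre w φ`: the first-order sentence `φ` is prenex with the quantifiers `w` (`true = ∀`, `false = ∃`) and
quantifier-free matrix (with equality).  `ModF T`: the models of `T` on `ℕ`.  `Fo L`: one-dimensional
formulas.  Let `D` be a set of words closed under subwords.  Vaught's conjecture for the theories whose
axioms have prefixes in `D` is either a theorem or as hard as the full conjecture (the frozen statement
`S14759`): in languages with relations and constants, in languages with constants and unary functions, and in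
languages with functions of any arities, where only the classes `D ⊆ ∃* ∀*` with `∀ ∀ ∈ D` remain open.
-/

set_option autoImplicit false

namespace Pool.Agent.Results.MP_5df2c5_lc.PrefixClassification

open FirstOrder Set Pool.Agent.Helper5.DU Pool.Agent.Helper6.Str VPF
open Pool.Agent.VOD (Fo)

/-- The dichotomy for a class `K` of structures on `ℕ`: countably many isomorphism types, or a map
from Cantor space to `K` with pairwise non-isomorphic values and clopen (relations), open (values of
functions) atomic facts. -/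
def Dich {L : FirstOrder.Language.{0, 0}} (K : Set (L.Structure ℕ)) : Prop :=
  (∃ g : ℕ → L.Structure ℕ, ∀ S ∈ K,
      ∃ n : ℕ, Nonempty (@FirstOrder.Language.Equiv L ℕ ℕ S (g n))) ∨
  (∃ f : (ℕ → Bool) → L.Structure ℕ, (∀ x : ℕ → Bool, f x ∈ K) ∧
      (∀ x y : ℕ → Bool, Nonempty (@FirstOrder.Language.Equiv L ℕ ℕ (f x) (f y)) → x = y) ∧
      (∀ (n : ℕ) (R : L.Relations n) (a : Fin n → ℕ),
        IsClopen {x : ℕ → Bool | @FirstOrder.Language.Structure.RelMap L ℕ (f x) n R a}) ∧
      (∀ (n : ℕ) (F : L.Functions n) (a : Fin n → ℕ) (b : ℕ),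
        IsOpen {x : ℕ → Bool | @FirstOrder.Language.Structure.funMap L ℕ (f x) n F a = b}))

/-- The dichotomy for the theories with prefixes in `D`, in all countable languages whose function
symbols have arities in `fa` and whose relation symbols have arities in `ra`. -/
def VC (fa ra : Set ℕ) (D : Set (List Bool)) : Prop :=
  ∀ L : FirstOrder.Language.{0, 0}, Countable L.Symbols →
    (∀ n, n ∉ fa → IsEmpty (L.Functions n)) → (∀ n, n ∉ ra → IsEmpty (L.Relations n)) →
    ∀ T : L.Theory, (∀ φ ∈ T, ∃ w ∈ D, Pre w φ) → Dich (ModF T)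

/-- The same for a theory `T` with prefixes in `D` together with any set `O` of one-dimensional
formulas (true under all assignments). -/
def VCOne (fa ra : Set ℕ) (D : Set (List Bool)) : Prop :=
  ∀ L : FirstOrder.Language.{0, 0}, Countable L.Symbols →
    (∀ n, n ∉ fa → IsEmpty (L.Functions n)) → (∀ n, n ∉ ra → IsEmpty (L.Relations n)) →
    ∀ T : L.Theory, (∀ φ ∈ T, ∃ w ∈ D, Pre w φ) → ∀ O : Set (Fo L),
      Dich {S | S ∈ ModF T ∧ ∀ φ ∈ O, ∀ a : ℕ → ℕ, φ.Sat S a}

/-- Vaught's conjecture (the frozen statement `S14759`) -/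
def FullVC : Prop :=
  ∀ (L : FirstOrder.Language.{0, 0}), Countable L.Symbols → ∀ (T : L.Theory),
      (∃ g : ℕ → L.Structure ℕ, ∀ S : L.Structure ℕ,
          @FirstOrder.Language.Theory.Model L ℕ S T →
            ∃ n : ℕ, Nonempty (@FirstOrder.Language.Equiv L ℕ ℕ S (g n))) ∨
      (∃ f : (ℕ → Bool) → L.Structure ℕ,
          (∀ x : ℕ → Bool, @FirstOrder.Language.Theory.Model L ℕ (f x) T) ∧
          (∀ x y : ℕ → Bool,
              Nonempty (@FirstOrder.Language.Equiv L ℕ ℕ (f x) (f y)) → x = y) ∧
          (∀ (n : ℕ) (R : L.Relations n) (a : Fin n → ℕ),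
              IsClopen {x : ℕ → Bool | @FirstOrder.Language.Structure.RelMap L ℕ (f x) n R a}) ∧
          (∀ (n : ℕ) (F : L.Functions n) (a : Fin n → ℕ) (b : ℕ),
              IsOpen {x : ℕ → Bool | @FirstOrder.Language.Structure.funMap L ℕ (f x) n F a = b}))

/-- All words of `D` have the form `∃^m ∀^k ∃^n` with `k ≤ 2`. -/
def Goedel (D : Set (List Bool)) : Prop :=
  ∀ w ∈ D, ∃ m k n : ℕ, k ≤ 2 ∧
    w = List.replicate m false ++ List.replicate k true ++ List.replicate n false

/-- All words of `D` have the form `∃^m ∀^l ∃^n ∀^k` with `l ≤ 1`. -/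
def OneAll (D : Set (List Bool)) : Prop :=
  ∀ w ∈ D, ∃ m l n k : ℕ, l ≤ 1 ∧
    w = List.replicate m false ++ List.replicate l true ++ List.replicate n false ++
      List.replicate k true

/-- All words of `D` have the form `∃^m ∀^l ∃^n` with `l ≤ 1`. -/
def OneEx (D : Set (List Bool)) : Prop :=
  ∀ w ∈ D, ∃ m l n : ℕ, l ≤ 1 ∧
    w = List.replicate m false ++ List.replicate l true ++ List.replicate n false

/-- All words of `D` have the form `∃^m ∀^k`. -/
def ExAll (D : Set (List Bool)) : Prop :=
  ∀ w ∈ D, ∃ m k : ℕ, w = List.replicate m false ++ List.replicate k true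

variable {L : FirstOrder.Language.{0, 0}}

theorem rel_dich (K : Set (L.Structure ℕ)) (hrel : ∀ n, IsEmpty (L.Functions n)) (h : Dich K) :
    CtblK K ∨ PerfK K := by
  rcases h with ⟨g, hg⟩ | ⟨f, h1, h2, h3, -⟩
  · exact Or.inl ⟨g, fun S hS => (hg S hS).imp fun n h => CC.iso_of_equiv h⟩
  · exact Or.inr ⟨f, h1, fun x y h => h2 x y (CC.equiv_of_iso h), h3⟩

theorem one_iff (D : Set (List Bool)) : OneAll D ↔ ∀ w ∈ D, Pool.Agent.EAE.EAEA w := by
  constructor
  · intro h w hw
    obtain ⟨m, l, n, k, hl, rfl⟩ := h w hw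
    exact ⟨m, l, n, k, hl, by simp only [List.append_assoc]⟩
  · intro h w hw
    obtain ⟨m, l, n, k, hl, rfl⟩ := h w hw
    exact ⟨m, l, n, k, hl, by simp only [List.append_assoc]⟩

/-- words without `∀∃` -/
theorem omit_ae (w : List Bool) (h : ¬ List.Sublist [true, false] w) :
    ∃ m k : ℕ, w = List.replicate m false ++ List.replicate k true := by
  induction w with
  | nil => exact ⟨0, 0, rfl⟩
  | cons b w ih =>
    cases b with
    | false =>
      obtain ⟨m, k, rfl⟩ := ih fun h1 => h (h1.cons _)
      exact ⟨m + 1, k, rfl⟩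
    | true =>
      have h1 : ∀ x ∈ w, x = true := by
        intro x hx
        cases x with
        | true => rfl
        | false => exact absurd ((List.singleton_sublist.2 hx).cons_cons true) h
      exact ⟨0, w.length + 1, by
        rw [List.eq_replicate_of_mem h1]
        simp [List.replicate_succ]⟩

/-- words without `∀∀` -/
theorem omit_aa (w : List Bool) (h : ¬ List.Sublist [true, true] w) :
    ∃ m l n : ℕ, l ≤ 1 ∧
      w = List.replicate m false ++ List.replicate l true ++ List.replicate n false := by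
  induction w with
  | nil => exact ⟨0, 0, 0, by omega, rfl⟩
  | cons b w ih =>
    cases b with
    | false =>
      obtain ⟨m, l, n, hl, rfl⟩ := ih fun h1 => h (h1.cons _)
      exact ⟨m + 1, l, n, hl, rfl⟩
    | true =>
      have h1 : ∀ x ∈ w, x = false := by
        intro x hx
        cases x with
        | false => rfl
        | true => exact absurd ((List.singleton_sublist.2 hx).cons_cons true) h
      exact ⟨0, 1, w.length, le_rfl, by
        rw [List.eq_replicate_of_mem h1]
        simp [List.replicate_succ]⟩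

/-- **Vaught's conjecture by the form of the axioms: the classification.** -/
theorem result (D : Set (List Bool))
    (hD : ∀ w ∈ D, ∀ v : List Bool, v.Sublist w → v ∈ D) :
    (Goedel D ∨ OneAll D → VC {0} univ D) ∧
    (¬ (Goedel D ∨ OneAll D) → VC ∅ {1, 2} D → FullVC) ∧
    (OneAll D → VCOne {0, 1} univ D) ∧
    (¬ OneAll D → VC {1} {1} D → FullVC) ∧
    (OneEx D → VC univ univ D) ∧
    (¬ OneEx D → ¬ ExAll D → VC {1, 2} {1} D → FullVC) := by
  have hOA : OneAll D → VCOne {0, 1} univ D := by
    intro h L hc hF _ T hT O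
    refine Pool.Agent.VOD.a_POS L hc (fun n hn => hF n ?_) T O fun φ hφ => ?_
    · rintro (rfl | rfl)
      · omega
      · omega
    · obtain ⟨w, hw, h1⟩ := hT φ hφ
      exact ⟨w, (one_iff D).1 h w hw, h1⟩
  have hAAE : ¬ OneAll D → [true, true, false] ∈ D := by
    intro h2
    by_contra h
    exact h2 ((one_iff D).2 fun w hw => Pool.Agent.EAE.a_WRD w fun h1 => h (hD w hw _ h1))
  refine ⟨?_, ?_, hOA, ?_, ?_, ?_⟩
  · rintro (hW | h2)
    · intro L hc hF _ T hT
      refine Pool.Agent.VOD.a_KON L hc (fun n hn => hF n (by simpa using hn)) T fun φ hφ => ?_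
      obtain ⟨w, hw, h1⟩ := hT φ hφ
      exact ⟨w, hW w hw, h1⟩
    · intro L hc hF hR T hT
      have h3 := hOA h2 L hc (fun n hn => hF n fun h => hn (Or.inl h)) hR T hT ∅
      have h4 : {S : L.Structure ℕ | S ∈ ModF T ∧ ∀ φ ∈ (∅ : Set (Fo L)), ∀ a : ℕ → ℕ,
          φ.Sat S a} = ModF T :=
        Set.ext fun S => ⟨fun h => h.1, fun h => ⟨h, fun φ hφ => absurd hφ (Set.notMem_empty φ)⟩⟩
      rw [h4] at h3
      exact h3
  · intro hn hV
    have h := hAAE fun h2 => hn (Or.inr h2)
    have h2 : [true, true, true] ∈ D ∨ [true, false, true] ∈ D := by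
      have hW : ¬ Goedel D := fun h2 => hn (Or.inl h2)
      unfold Goedel at hW
      push Not at hW
      obtain ⟨w, hw, h1⟩ := hW
      rcases Cls.three w with h2 | h2 | h2
      · obtain ⟨m, k, n, hk, h3⟩ := h2
        exact absurd h3 (h1 m k n hk)
      · exact Or.inl (hD w hw _ h2)
      · exact Or.inr (hD w hw _ h2)
    refine thm_C (fun w => w ∈ D) h h2 fun L' hR hF h12 T' hT' => ?_
    refine rel_dich _ hF (hV L' ?_ (fun n _ => hF n) (fun n hn => h12 n ?_ ?_) T' hT')
    · have h3 : Countable ((n : ℕ) × L'.Relations n) := inferInstance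
      have h4 : Countable ((n : ℕ) × L'.Functions n) := by
        have : IsEmpty ((n : ℕ) × L'.Functions n) := ⟨fun x => isEmptyElim x.2⟩
        infer_instance
      exact inferInstanceAs
        (Countable (((n : ℕ) × L'.Functions n) ⊕ ((n : ℕ) × L'.Relations n)))
    · rintro rfl
      exact hn (by simp)
    · rintro rfl
      exact hn (by simp)
  · intro h2 hV
    have h := hAAE h2
    refine Pool.Agent.VOD.a_NEG D (hD _ h _ (by decide)) (hD _ h _ (by decide)) (hD _ h _ (by decide)) h
      fun L hc hF hR T hT => ?_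
    exact hV L hc (fun n hn => hF n (by simpa using hn)) (fun n hn => hR n (by simpa using hn)) T hT
  · intro h2 L hc _ _ T hT
    refine Pool.Agent.VOD.a_FUN L hc T fun φ hφ => ?_
    obtain ⟨w, hw, h1⟩ := hT φ hφ
    obtain ⟨m, l, n, hl, rfl⟩ := h2 w hw
    exact ⟨_, ⟨m, l, n, hl, by simp only [List.append_assoc]⟩, h1⟩
  · intro h2 h3 hV
    have haa : [true, true] ∈ D := by
      by_contra h
      exact h2 fun w hw => omit_aa w fun h1 => h (hD w hw _ h1)
    have hae : [true, false] ∈ D := by
      by_contra h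
      exact h3 fun w hw => omit_ae w fun h1 => h (hD w hw _ h1)
    refine Pool.Agent.VOD.a_NE4 D (hD _ haa _ (by decide)) haa hae fun L hc hF hR T hT => ?_
    refine hV L hc (fun n hn => hF n ?_ ?_) (fun n hn => hR n (by simpa using hn)) T hT
    · rintro rfl
      exact hn (by simp)
    · rintro rfl
      exact hn (by simp)

end Pool.Agent.Results.MP_5df2c5_lc.PrefixClassification
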